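import Mathlib

/-!
# Jordan decomposition of a functional on `C(K, ℝ)`
-/

set_option autoImplicit false

namespace Pool.Agent.Helper92_Seq

open Set

set_option linter.unusedSectionVars false

variable {K : Type*} [TopologicalSpace K] [CompactSpace K]

/-- the positive part on the positive cone -/
noncomputable def jP (φ : C(K, ℝ) →L[ℝ] ℝ) (f : C(K, ℝ)) : ℝ :=
  sSup {r | ∃ g : C(K, ℝ), 0 ≤ g ∧ g ≤ f ∧ r = φ g}

theorem norm_le_of_le {f g : C(K, ℝ)} (h0 : 0 ≤ g) (h1 : g ≤ f) : ‖g‖ ≤ ‖f‖ := by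
  refine (ContinuousMap.norm_le g (norm_nonneg f)).2 fun x => ?_
  have h2 : 0 ≤ g x := h0 x
  have h3 : g x ≤ f x := h1 x
  calc ‖g x‖ = g x := by rw [Real.norm_eq_abs, abs_of_nonneg h2]
    _ ≤ f x := h3
    _ ≤ ‖f x‖ := le_abs_self _
    _ ≤ ‖f‖ := ContinuousMap.norm_coe_le_norm f x

theorem jP_bdd (φ : C(K, ℝ) →L[ℝ] ℝ) (f : C(K, ℝ)) :
    BddAbove {r | ∃ g : C(K, ℝ), 0 ≤ g ∧ g ≤ f ∧ r = φ g} := by
  refine ⟨‖φ‖ * ‖f‖, ?_⟩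
  rintro _ ⟨g, hg0, hgf, rfl⟩
  calc φ g ≤ ‖φ g‖ := le_abs_self _
    _ ≤ ‖φ‖ * ‖g‖ := φ.le_opNorm g
    _ ≤ ‖φ‖ * ‖f‖ := by
      gcongr
      exact norm_le_of_le hg0 hgf

theorem le_jP (φ : C(K, ℝ) →L[ℝ] ℝ) {f g : C(K, ℝ)} (h0 : 0 ≤ g) (h1 : g ≤ f) :
    φ g ≤ jP φ f := le_csSup (jP_bdd φ f) ⟨g, h0, h1, rfl⟩

theorem jP_le (φ : C(K, ℝ) →L[ℝ] ℝ) {f : C(K, ℝ)} (hf : 0 ≤ f) {r : ℝ}
    (h : ∀ g : C(K, ℝ), 0 ≤ g → g ≤ f → φ g ≤ r) : jP φ f ≤ r := by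
  refine csSup_le ⟨φ 0, 0, le_refl _, hf, rfl⟩ ?_
  rintro _ ⟨g, hg0, hgf, rfl⟩
  exact h g hg0 hgf

theorem jP_nonneg (φ : C(K, ℝ) →L[ℝ] ℝ) {f : C(K, ℝ)} (hf : 0 ≤ f) : 0 ≤ jP φ f := by
  have := le_jP φ (le_refl (0 : C(K, ℝ))) hf
  rwa [map_zero] at this

theorem jP_norm (φ : C(K, ℝ) →L[ℝ] ℝ) {f : C(K, ℝ)} (hf : 0 ≤ f) : jP φ f ≤ ‖φ‖ * ‖f‖ := by
  refine jP_le φ hf fun g hg0 hgf => ?_
  calc φ g ≤ ‖φ g‖ := le_abs_self _
    _ ≤ ‖φ‖ * ‖g‖ := φ.le_opNorm g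
    _ ≤ ‖φ‖ * ‖f‖ := by
      gcongr
      exact norm_le_of_le hg0 hgf

theorem jP_add (φ : C(K, ℝ) →L[ℝ] ℝ) {f h : C(K, ℝ)} (hf : 0 ≤ f) (hh : 0 ≤ h) :
    jP φ (f + h) = jP φ f + jP φ h := by
  apply le_antisymm
  · refine jP_le φ (add_nonneg hf hh) fun g hg0 hg => ?_
    have e : g = g ⊓ f + (g - g ⊓ f) := by abel
    rw [e, map_add]
    refine add_le_add (le_jP φ (le_inf hg0 hf) inf_le_right) (le_jP φ ?_ ?_)
    · exact sub_nonneg.2 inf_le_left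
    · intro x
      have h1 : g x ≤ f x + h x := hg x
      have h2 : 0 ≤ h x := hh x
      change g x - min (g x) (f x) ≤ h x
      rcases min_choice (g x) (f x) with h4 | h4 <;> rw [h4] <;> linarith
  · have key : ∀ g : C(K, ℝ), 0 ≤ g → g ≤ f → φ g ≤ jP φ (f + h) - jP φ h := by
      intro g hg0 hg
      have : jP φ h ≤ jP φ (f + h) - φ g := by
        refine jP_le φ hh fun k hk0 hk => ?_
        have h1 := le_jP φ (add_nonneg hg0 hk0) (add_le_add hg hk)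
        rw [map_add] at h1
        linarith
      linarith
    have := jP_le φ hf key
    linarith

theorem jordan (φ : C(K, ℝ) →L[ℝ] ℝ) : ∃ φ₁ φ₂ : C(K, ℝ) →L[ℝ] ℝ,
    (∀ f, 0 ≤ f → 0 ≤ φ₁ f) ∧ (∀ f, 0 ≤ f → 0 ≤ φ₂ f) ∧ φ = φ₁ - φ₂ := by
  have hpos : ∀ f : C(K, ℝ), 0 ≤ f ⊔ 0 := fun f => le_sup_right
  have hdec : ∀ f : C(K, ℝ), f = f ⊔ 0 - (-f) ⊔ 0 := by
    intro f
    ext x
    have : (f ⊔ 0 - (-f) ⊔ 0) x = max (f x) 0 - max (-(f x)) 0 := rfl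
    rw [this]
    rcases le_total 0 (f x) with h | h
    · rw [max_eq_left h, max_eq_right (by linarith)]; ring
    · rw [max_eq_right h, max_eq_left (by linarith)]; ring
  let ψ : C(K, ℝ) → ℝ := fun f => jP φ (f ⊔ 0) - jP φ ((-f) ⊔ 0)
  have hψ : ∀ f g h : C(K, ℝ), 0 ≤ g → 0 ≤ h → f = g - h → ψ f = jP φ g - jP φ h := by
    intro f g h hg hh e
    have h1 : f ⊔ 0 + h = g + (-f) ⊔ 0 := by
      have := hdec f
      calc f ⊔ 0 + h = (f ⊔ 0 - (-f) ⊔ 0) + ((-f) ⊔ 0 + h) := by abel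
        _ = f + ((-f) ⊔ 0 + h) := by rw [← this]
        _ = (g - h) + ((-f) ⊔ 0 + h) := by rw [← e]
        _ = g + (-f) ⊔ 0 := by abel
    have h2 := congrArg (jP φ) h1
    rw [jP_add φ (hpos f) hh, jP_add φ hg (hpos (-f))] at h2
    simp only [ψ]
    linarith
  have hadd : ∀ f h, ψ (f + h) = ψ f + ψ h := by
    intro f h
    rw [hψ (f + h) (f ⊔ 0 + h ⊔ 0) ((-f) ⊔ 0 + (-h) ⊔ 0) (add_nonneg (hpos f) (hpos h))
      (add_nonneg (hpos _) (hpos _)), jP_add φ (hpos f) (hpos h), jP_add φ (hpos _) (hpos _)]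
    · simp only [ψ]; ring
    · nth_rw 1 [hdec f, hdec h]; abel
  let A : C(K, ℝ) →+ ℝ := AddMonoidHom.mk' ψ hadd
  have hbound : ∀ f, ‖A f‖ ≤ ‖φ‖ * ‖f‖ := by
    intro f
    have h1 : ‖f ⊔ 0‖ ≤ ‖f‖ := by
      refine (ContinuousMap.norm_le _ (norm_nonneg f)).2 fun x => ?_
      have : (f ⊔ 0) x = max (f x) 0 := rfl
      rw [this, Real.norm_eq_abs, abs_of_nonneg (le_max_right _ _)]
      exact max_le ((le_abs_self _).trans (ContinuousMap.norm_coe_le_norm f x)) (norm_nonneg f)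
    have h2 : ‖(-f) ⊔ 0‖ ≤ ‖f‖ := by
      refine (ContinuousMap.norm_le _ (norm_nonneg f)).2 fun x => ?_
      have : ((-f) ⊔ 0) x = max (-(f x)) 0 := rfl
      rw [this, Real.norm_eq_abs, abs_of_nonneg (le_max_right _ _)]
      refine max_le ((neg_le_abs _).trans (ContinuousMap.norm_coe_le_norm f x)) (norm_nonneg f)
    have h3 := jP_norm φ (hpos f)
    have h4 := jP_norm φ (hpos (-f))
    have h5 := jP_nonneg φ (hpos f)
    have h6 := jP_nonneg φ (hpos (-f))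
    have h7 : ‖φ‖ * ‖f ⊔ 0‖ ≤ ‖φ‖ * ‖f‖ := by gcongr
    have h8 : ‖φ‖ * ‖(-f) ⊔ 0‖ ≤ ‖φ‖ * ‖f‖ := by gcongr
    have : A f = jP φ (f ⊔ 0) - jP φ ((-f) ⊔ 0) := rfl
    rw [this, Real.norm_eq_abs, abs_le]
    constructor <;> linarith
  have hcont : Continuous A := by
    refine AddMonoidHomClass.continuous_of_bound A ‖φ‖ hbound
  let φ₁ : C(K, ℝ) →L[ℝ] ℝ := A.toRealLinearMap hcont
  have e1 : ∀ f, 0 ≤ f → φ₁ f = jP φ f := by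
    intro f hf
    have h1 : φ₁ f = ψ f := rfl
    rw [h1, hψ f f 0 hf (le_refl _) (by simp)]
    have h2 : jP φ 0 = 0 := by
      have := jP_add φ (le_refl (0 : C(K, ℝ))) (le_refl 0)
      rw [add_zero] at this
      linarith
    rw [h2, sub_zero]
  refine ⟨φ₁, φ₁ - φ, ?_, ?_, by abel⟩
  · intro f hf
    rw [e1 f hf]
    exact jP_nonneg φ hf
  · intro f hf
    have h1 : (φ₁ - φ) f = φ₁ f - φ f := rfl
    rw [h1, e1 f hf]
    have := le_jP φ hf (le_refl f)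
    linarith

end Pool.Agent.Helper92_Seq
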