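import Pool.Agent.Helper92_Seq.Edgar
import Pool.Agent.Helper92_Seq.Jordan

/-!
# Reductions for S04750

`flim`: limits of measurable functions along a Borel filter on a countable set are measurable.
`baeq`: if every normalized positive functional on `C(K)` is a limit, along a Borel filter on a
countable set, of functions continuous for the pointwise topology, then the two Baire
sigma-algebras of the frozen statement agree.
-/

set_option autoImplicit false

namespace Pool.Agent.Helper92_Seq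

open Set Filter

/-- limits along a Borel filter on a countable set -/
theorem flim {J X : Type*} [Countable J] [mX : MeasurableSpace X] (F : Filter J) [F.NeBot]
    (hF : MeasurableSet {s : J → Prop | {j | s j} ∈ F}) (g : J → X → ℝ)
    (hg : ∀ j, Measurable (g j)) (φ : X → ℝ)
    (h : ∀ x, Tendsto (fun j => g j x) F (nhds (φ x))) : Measurable φ := by
  refine measurable_of_Ioi fun a => ?_
  have e : φ ⁻¹' (Ioi a) = ⋃ q ∈ {q : ℚ | a < q},
      (fun x => fun j => (q : ℝ) < g j x) ⁻¹' {s : J → Prop | {j | s j} ∈ F} := by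
    ext x
    simp only [mem_preimage, mem_Ioi, mem_iUnion, exists_prop]
    constructor
    · intro hx
      obtain ⟨q, hq1, hq2⟩ := exists_rat_btwn hx
      exact ⟨q, hq1, (h x).eventually (eventually_gt_nhds hq2)⟩
    · rintro ⟨q, hq, hx⟩
      have h1 : (q : ℝ) ≤ φ x :=
        ge_of_tendsto (h x) (Filter.mem_of_superset hx fun j (hj : (q : ℝ) < g j x) => hj.le)
      exact lt_of_lt_of_le hq h1
  rw [e]
  refine MeasurableSet.biUnion (to_countable _) fun q _ => ?_
  refine hF.preimage (measurable_pi_iff.2 fun j => ?_)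
  exact measurableSet_setOfPred.1 (measurableSet_lt measurable_const (hg j))

/-- the pointwise topology -/
abbrev tp (K : Type*) [TopologicalSpace K] : TopologicalSpace C(K, ℝ) :=
  TopologicalSpace.induced (fun (f : C(K, ℝ)) (x : K) => f x) inferInstance

/-- the Baire sigma-algebra of the pointwise topology, as in the frozen statement -/
abbrev baTp (K : Type*) [TopologicalSpace K] : MeasurableSpace C(K, ℝ) :=
  ⨆ (g : C(K, ℝ) → ℝ) (_ : @Continuous C(K, ℝ) ℝ
          (TopologicalSpace.induced (fun (f : C(K, ℝ)) (x : K) => f x) inferInstance) _ g),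
          MeasurableSpace.comap g (borel ℝ)

theorem baTp_meas {K : Type*} [TopologicalSpace K] {g : C(K, ℝ) → ℝ}
    (hg : @Continuous C(K, ℝ) ℝ (tp K) _ g) : @Measurable _ _ (baTp K) _ g := by
  rw [measurable_iff_comap_le]
  exact le_iSup₂ (f := fun (g : C(K, ℝ) → ℝ) (_ : @Continuous C(K, ℝ) ℝ
          (TopologicalSpace.induced (fun (f : C(K, ℝ)) (x : K) => f x) inferInstance) _ g) =>
          MeasurableSpace.comap g (borel ℝ)) g hg

theorem mulc {X : Type*} (m : MeasurableSpace X) {g : X → ℝ} (hg : Measurable g) (c : ℝ) :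
    Measurable fun x => c * g x := hg.const_mul c

theorem subc {X : Type*} (m : MeasurableSpace X) {g h : X → ℝ} (hg : Measurable g)
    (hh : Measurable h) : Measurable fun x => g x - h x := hg.sub hh

theorem tp_le {K : Type*} [TopologicalSpace K] [CompactSpace K] :
    (⨅ (φ : C(K, ℝ) →L[ℝ] ℝ), TopologicalSpace.induced (⇑φ) inferInstance) ≤ tp K := by
  have e : tp K = ⨅ x : K, TopologicalSpace.induced (fun f : C(K, ℝ) => f x) inferInstance := by
    change TopologicalSpace.induced _ Pi.topologicalSpace = _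
    rw [Pi.topologicalSpace, induced_iInf]
    refine iInf_congr fun x => ?_
    rw [induced_compose]
    rfl
  rw [e]
  exact le_iInf fun x =>
    iInf_le (fun φ : C(K, ℝ) →L[ℝ] ℝ => TopologicalSpace.induced (⇑φ) inferInstance)
      (ContinuousMap.evalCLM ℝ x)

theorem baeq {K : Type} [TopologicalSpace K] [CompactSpace K] {J : Type*} [Countable J]
    (F : Filter J) [F.NeBot] (hF : MeasurableSet {s : J → Prop | {j | s j} ∈ F})
    (h : ∀ φ : C(K, ℝ) →L[ℝ] ℝ, (∀ f, 0 ≤ f → 0 ≤ φ f) → φ 1 = 1 →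
      ∃ g : J → C(K, ℝ) → ℝ, (∀ j, @Continuous C(K, ℝ) ℝ (tp K) _ (g j)) ∧
        ∀ f, Tendsto (fun j => g j f) F (nhds (φ f))) :
    (⨆ (g : C(K, ℝ) → ℝ) (_ : @Continuous C(K, ℝ) ℝ
          (TopologicalSpace.induced (fun (f : C(K, ℝ)) (x : K) => f x) inferInstance) _ g),
          MeasurableSpace.comap g (borel ℝ))
        = (⨆ (g : C(K, ℝ) → ℝ) (_ : @Continuous C(K, ℝ) ℝ
          (⨅ (φ : C(K, ℝ) →L[ℝ] ℝ), TopologicalSpace.induced (⇑φ) inferInstance) _ g),
          MeasurableSpace.comap g (borel ℝ)) := by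
  have h1 : ∀ φ : C(K, ℝ) →L[ℝ] ℝ, (∀ f, 0 ≤ f → 0 ≤ φ f) →
      @Measurable _ _ (baTp K) _ (⇑φ) := by
    intro φ hφ
    have h0 : 0 ≤ φ 1 := hφ 1 (fun x => zero_le_one)
    rcases h0.eq_or_lt with h0 | h0
    · have hz : (⇑φ : C(K, ℝ) → ℝ) = fun _ => 0 := by
        funext f
        have hb : ∀ f : C(K, ℝ), φ f ≤ 0 := by
          intro f
          have h2 : (0 : C(K, ℝ)) ≤ ‖f‖ • (1 : C(K, ℝ)) - f := by
            intro x
            have : f x ≤ ‖f‖ := (le_abs_self _).trans (ContinuousMap.norm_coe_le_norm f x)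
            change 0 ≤ ‖f‖ * 1 - f x
            linarith
          have h3 := hφ _ h2
          rw [map_sub, map_smul, ← h0, smul_zero, zero_sub] at h3
          linarith
        have h4 := hb f
        have h5 := hb (-f)
        rw [map_neg] at h5
        linarith
      rw [hz]
      exact @measurable_const _ _ _ (baTp K) _
    · obtain ⟨g, hg1, hg2⟩ := h ((φ 1)⁻¹ • φ) (fun f hf => by
        change 0 ≤ (φ 1)⁻¹ * φ f
        exact mul_nonneg (inv_nonneg.2 h0.le) (hφ f hf)) (by
        change (φ 1)⁻¹ * φ 1 = 1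
        exact inv_mul_cancel₀ h0.ne')
      have h2 : @Measurable _ _ (baTp K) _ (⇑((φ 1)⁻¹ • φ)) :=
        @flim J _ _ (baTp K) F _ hF g (fun j => baTp_meas (hg1 j)) _ hg2
      have h3 : (⇑φ : C(K, ℝ) → ℝ) = fun f => φ 1 * ((φ 1)⁻¹ • φ) f := by
        funext f
        change φ f = φ 1 * ((φ 1)⁻¹ * φ f)
        rw [← mul_assoc, mul_inv_cancel₀ h0.ne', one_mul]
      rw [h3]
      exact mulc (baTp K) h2 (φ 1)
  have h2 : ∀ φ : C(K, ℝ) →L[ℝ] ℝ, MeasurableSpace.comap (⇑φ) (borel ℝ) ≤ baTp K := by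
    intro φ
    obtain ⟨φ₁, φ₂, hp1, hp2, rfl⟩ := jordan φ
    have h3 : @Measurable _ _ (baTp K) _ (⇑(φ₁ - φ₂)) :=
      subc (baTp K) (h1 φ₁ hp1) (h1 φ₂ hp2)
    exact measurable_iff_comap_le.1 h3
  apply le_antisymm
  · refine iSup₂_le fun g hg => ?_
    have hg' : @Continuous C(K, ℝ) ℝ
        (⨅ (φ : C(K, ℝ) →L[ℝ] ℝ), TopologicalSpace.induced (⇑φ) inferInstance) _ g :=
      continuous_le_dom tp_le hg
    exact le_iSup₂ (f := fun (g : C(K, ℝ) → ℝ) (_ : @Continuous C(K, ℝ) ℝ
          (⨅ (φ : C(K, ℝ) →L[ℝ] ℝ), TopologicalSpace.induced (⇑φ) inferInstance) _ g) =>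
          MeasurableSpace.comap g (borel ℝ)) g hg'
  · refine iSup₂_le fun g hg => ?_
    exact (edgar g hg).trans (iSup_le fun φ => h2 φ)

end Pool.Agent.Helper92_Seq
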