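import Mathlib

/-!
# Edgar's theorem: the Baire sigma-algebra of the weak topology is generated by the functionals

General form: a real function that is continuous for the topology induced by a map `J : E → (Γ → ℝ)`
whose finite projections are all onto, is measurable for the coordinates of `J`.
-/

set_option autoImplicit false

namespace Pool.Agent.Helper92_Seq

open MeasureTheory ProbabilityTheory Set

section Gen

variable {E Γ : Type*}

/-- a code of a rational box -/
def Bx (c : Finset (Γ × ℚ × ℚ)) : Set (Γ → ℝ) :=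
  {f | ∀ e ∈ c, (e.2.1 : ℝ) < f e.1 ∧ f e.1 < (e.2.2 : ℝ)}

theorem isOpen_Bx (c : Finset (Γ × ℚ × ℚ)) : IsOpen (Bx c) := by
  have h : Bx c = ⋂ e ∈ c, {f : Γ → ℝ | (e.2.1 : ℝ) < f e.1 ∧ f e.1 < (e.2.2 : ℝ)} := by
    ext f; simp [Bx]
  rw [h]
  refine isOpen_biInter_finset fun e _ => ?_
  exact (isOpen_lt continuous_const (continuous_apply e.1)).inter
    (isOpen_lt (continuous_apply e.1) continuous_const)

theorem Bx_anti {c d : Finset (Γ × ℚ × ℚ)} (h : c ⊆ d) : Bx d ⊆ Bx c :=
  fun _ hf e he => hf e (h he)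

/-- the boxes are a basis -/
theorem exists_Bx {V : Set (Γ → ℝ)} (hV : IsOpen V) {f : Γ → ℝ} (hf : f ∈ V) :
    ∃ c : Finset (Γ × ℚ × ℚ), f ∈ Bx c ∧ Bx c ⊆ V := by
  classical
  obtain ⟨I, u, hu, hsub⟩ := isOpen_pi_iff.1 hV f hf
  have h1 : ∀ a ∈ I, ∃ pq : ℚ × ℚ, (pq.1 : ℝ) < f a ∧ f a < (pq.2 : ℝ) ∧
      Ioo (pq.1 : ℝ) (pq.2 : ℝ) ⊆ u a := by
    intro a ha
    obtain ⟨t, ht, hat, htu⟩ :=
      Real.isTopologicalBasis_Ioo_rat.exists_subset_of_mem_open (hu a ha).2 (hu a ha).1
    simp only [mem_iUnion, mem_singleton_iff] at ht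
    obtain ⟨p, q, hpq, rfl⟩ := ht
    exact ⟨(p, q), hat.1, hat.2, htu⟩
  choose! pq h2 h3 h4 using h1
  refine ⟨I.image fun a => (a, pq a), ?_, ?_⟩
  · intro e he
    obtain ⟨a, ha, rfl⟩ := Finset.mem_image.1 he
    exact ⟨h2 a ha, h3 a ha⟩
  · intro g hg
    apply hsub
    intro a ha
    apply h4 a ha
    have := hg (a, pq a) (Finset.mem_image.2 ⟨a, ha, rfl⟩)
    exact this

/-- nonempty boxes have positive measure for a product of Gaussians -/
theorem pos_Bx (c : Finset (Γ × ℚ × ℚ)) (hc : (Bx c).Nonempty) :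
    0 < Measure.infinitePi (fun _ : Γ => gaussianReal 0 1) (Bx c) := by
  classical
  obtain ⟨f, hf⟩ := hc
  let u : Γ → Set ℝ := fun i => ⋂ e ∈ c.filter (fun e => e.1 = i), Ioo (e.2.1 : ℝ) (e.2.2 : ℝ)
  have hu : ∀ i, IsOpen (u i) := fun i =>
    isOpen_biInter_finset fun e _ => isOpen_Ioo
  have h1 : Bx c = (↑(c.image Prod.fst) : Set Γ).pi u := by
    ext g
    simp only [Bx, mem_ofPred_eq, Set.mem_pi, Finset.coe_image, Finset.mem_coe, u, mem_iInter,
      Finset.mem_filter, mem_Ioo]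
    constructor
    · rintro hg i _ e ⟨he, rfl⟩
      exact hg e he
    · intro hg e he
      exact hg e.1 ⟨e, he, rfl⟩ e ⟨he, rfl⟩
  rw [h1, Measure.infinitePi_pi _ (fun i _ => (hu i).measurableSet)]
  refine pos_iff_ne_zero.2 (Finset.prod_ne_zero_iff.2 fun i hi => ?_)
  intro h0
  have h2 : (volume : Measure ℝ) (u i) = 0 := gaussianReal_absolutelyContinuous' 0 one_ne_zero h0
  have h3 : (u i).Nonempty := by
    refine ⟨f i, ?_⟩
    simp only [u, mem_iInter, Finset.mem_filter, mem_Ioo]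
    rintro e ⟨he, rfl⟩
    exact hf e he
  exact ((hu i).measure_pos volume h3).ne' h2

/-- countable chain condition for boxes, in the form used below -/
theorem exists_countable_dense (C : Set (Finset (Γ × ℚ × ℚ))) (hC : ∀ c ∈ C, (Bx c).Nonempty) :
    ∃ W ⊆ C, W.Countable ∧ ∀ c ∈ C, ∃ w ∈ W, (Bx c ∩ Bx w).Nonempty := by
  obtain ⟨W, hW⟩ := zorn_subset {W : Set (Finset (Γ × ℚ × ℚ)) | W ⊆ C ∧
      W.Pairwise fun a b => Disjoint (Bx a) (Bx b)} (by
    intro ch hch hchain
    refine ⟨⋃₀ ch, ⟨?_, ?_⟩, fun s hs => subset_sUnion_of_mem hs⟩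
    · exact sUnion_subset fun s hs => (hch hs).1
    · rw [pairwise_sUnion hchain.directedOn]
      exact fun s hs => (hch hs).2)
  refine ⟨W, hW.prop.1, ?_, ?_⟩
  · have h1 : Pairwise (Function.onFun Disjoint fun w : W => Bx w.1) := by
      intro a b hab
      exact hW.prop.2 a.2 b.2 (fun h => hab (Subtype.ext h))
    have hm : ∀ w : W, MeasurableSet (Bx w.1) := by
      intro w
      have h : Bx w.1 = ⋂ e ∈ w.1, {f : Γ → ℝ | (e.2.1 : ℝ) < f e.1 ∧ f e.1 < (e.2.2 : ℝ)} := by
        ext f; simp [Bx]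
      rw [h]
      refine Finset.measurableSet_biInter _ fun e _ => ?_
      exact (measurableSet_lt measurable_const (measurable_pi_apply e.1)).inter
        (measurableSet_lt (measurable_pi_apply e.1) measurable_const)
    have h2 := Measure.countable_meas_pos_of_disjoint_iUnion
      (μ := Measure.infinitePi (fun _ : Γ => gaussianReal 0 1)) hm h1
    have h3 : {i : W | 0 < Measure.infinitePi (fun _ : Γ => gaussianReal 0 1) (Bx i.1)} = univ := by
      ext w
      simp only [mem_ofPred_eq, mem_univ, iff_true]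
      exact pos_Bx w.1 (hC w.1 (hW.prop.1 w.2))
    rw [h3] at h2
    exact countable_coe_iff.1 (countable_univ_iff.1 h2)
  · intro c hc
    by_contra hcon
    push Not at hcon
    have h1 : insert c W ∈ {W : Set (Finset (Γ × ℚ × ℚ)) | W ⊆ C ∧
        W.Pairwise fun a b => Disjoint (Bx a) (Bx b)} := by
      refine ⟨insert_subset hc hW.prop.1, ?_⟩
      refine hW.prop.2.insert fun w hw _ => ?_
      suffices h : Disjoint (Bx c) (Bx w) from ⟨h, h.symm⟩
      rw [disjoint_iff_inter_eq_empty]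
      exact hcon w hw
    have h2 := hW.le_of_ge h1 (subset_insert c W)
    have h3 : c ∈ W := h2 (mem_insert c W)
    have h4 := hcon c h3
    rw [inter_self] at h4
    exact (hC c hc).ne_empty h4

/-- continuous functions on a dense image are measurable for the coordinates -/
theorem edgar_gen (J : E → Γ → ℝ)
    (hD : ∀ (s : Finset Γ) (t : Γ → ℝ), ∃ x, ∀ i ∈ s, J x i = t i) (g : E → ℝ)
    (hg : @Continuous E ℝ (TopologicalSpace.induced J inferInstance) _ g) :
    MeasurableSpace.comap g (borel ℝ) ≤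
      ⨆ i, MeasurableSpace.comap (fun x => J x i) (borel ℝ) := by
  classical
  let τ : TopologicalSpace E := TopologicalSpace.induced J inferInstance
  -- codes of boxes inside `g < q`
  let C : ℚ → Set (Finset (Γ × ℚ × ℚ)) := fun q =>
    {c | (Bx c).Nonempty ∧ ∀ x, J x ∈ Bx c → g x < q}
  have hW : ∀ q, ∃ W ⊆ C q, W.Countable ∧ ∀ c ∈ C q, ∃ w ∈ W, (Bx c ∩ Bx w).Nonempty :=
    fun q => exists_countable_dense (C q) fun c hc => hc.1
  choose W hWC hWc hWd using hW
  let N : Set Γ := {i | ∃ q, ∃ w ∈ W q, ∃ e ∈ w, e.1 = i}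
  have hN : N.Countable := by
    have h : N = ⋃ q : ℚ, ⋃ w ∈ W q, ((fun e : Γ × ℚ × ℚ => e.1) '' (w : Set (Γ × ℚ × ℚ))) := by
      ext i
      simp [N]
    rw [h]
    exact countable_iUnion fun q => (hWc q).biUnion fun w _ =>
      (w.countable_toSet).image _
  let K : Set (Finset (Γ × ℚ × ℚ)) := {c | ∀ e ∈ c, e.1 ∈ N}
  have hK : K.Countable := by
    have h1 : {s : Set (Γ × ℚ × ℚ) | s.Finite ∧ s ⊆ {e | e.1 ∈ N}}.Countable := by
      apply Set.countable_ofPred_finite_subset
      have : {e : Γ × ℚ × ℚ | e.1 ∈ N} = N ×ˢ (univ : Set (ℚ × ℚ)) := by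
        ext e; simp
      rw [this]
      exact hN.prod countable_univ
    have h2 : K ⊆ (fun c : Finset (Γ × ℚ × ℚ) => (c : Set (Γ × ℚ × ℚ))) ⁻¹'
        {s : Set (Γ × ℚ × ℚ) | s.Finite ∧ s ⊆ {e | e.1 ∈ N}} := by
      intro c hc
      exact ⟨c.finite_toSet, fun e he => hc e he⟩
    exact (h1.preimage Finset.coe_injective).mono h2
  let O : ℚ → Set E := fun q =>
    ⋃ c ∈ {c ∈ K | ∀ x, J x ∈ Bx c → (q : ℝ) ≤ g x}, J ⁻¹' (Bx c)
  have hO1 : ∀ q x, x ∈ O q → (q : ℝ) ≤ g x := by
    intro q x hx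
    simp only [O, mem_iUnion, exists_prop] at hx
    obtain ⟨c, hc, hx⟩ := hx
    exact hc.2 x hx
  have hO2 : ∀ (q : ℚ) x, (q : ℝ) < g x → x ∈ O q := by
    intro q x hx
    have h1 : IsOpen (g ⁻¹' (Ioi (q : ℝ))) := isOpen_Ioi.preimage hg
    obtain ⟨V, hV, hVe⟩ := isOpen_induced_iff.1 h1
    have hxV : J x ∈ V := by
      have : x ∈ J ⁻¹' V := by rw [hVe]; exact hx
      exact this
    obtain ⟨B', hxB', hB'⟩ := exists_Bx hV hxV
    have hB'g : ∀ y, J y ∈ Bx B' → (q : ℝ) < g y := by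
      intro y hy
      have : y ∈ J ⁻¹' V := hB' hy
      rw [hVe] at this
      exact this
    let B : Finset (Γ × ℚ × ℚ) := B'.filter fun e => e.1 ∈ N
    have hBB' : B ⊆ B' := Finset.filter_subset _ _
    have hBK : B ∈ K := fun e he => (Finset.mem_filter.1 he).2
    simp only [O, mem_iUnion, exists_prop]
    refine ⟨B, ⟨hBK, ?_⟩, Bx_anti hBB' hxB'⟩
    intro y hy
    by_contra hlt
    push Not at hlt
    have h2 : IsOpen (g ⁻¹' (Iio (q : ℝ))) := isOpen_Iio.preimage hg
    obtain ⟨V2, hV2, hV2e⟩ := isOpen_induced_iff.1 h2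
    have hyV2 : J y ∈ V2 := by
      have : y ∈ J ⁻¹' V2 := by rw [hV2e]; exact hlt
      exact this
    obtain ⟨D, hyD, hD'⟩ := exists_Bx (hV2.inter (isOpen_Bx B)) ⟨hyV2, hy⟩
    have hDC : D ∈ C q := by
      refine ⟨⟨J y, hyD⟩, fun z hz => ?_⟩
      have : z ∈ J ⁻¹' V2 := (hD' hz).1
      rw [hV2e] at this
      exact this
    obtain ⟨w, hw, f, hfD, hfw⟩ := hWd q D hDC
    have hfB : f ∈ Bx B := (hD' hfD).2
    let t : Γ → ℝ := fun i => if i ∈ N then f i else J x i
    obtain ⟨d, hd⟩ := hD ((w ∪ B').image Prod.fst) t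
    have hdw : J d ∈ Bx w := by
      intro e he
      have heN : e.1 ∈ N := ⟨q, w, hw, e, he, rfl⟩
      rw [hd e.1 (Finset.mem_image.2 ⟨e, Finset.mem_union_left _ he, rfl⟩)]
      simp only [t, if_pos heN]
      exact hfw e he
    have hdB' : J d ∈ Bx B' := by
      intro e he
      rw [hd e.1 (Finset.mem_image.2 ⟨e, Finset.mem_union_right _ he, rfl⟩)]
      by_cases heN : e.1 ∈ N
      · simp only [t, if_pos heN]
        exact hfB e (Finset.mem_filter.2 ⟨he, heN⟩)
      · simp only [t, if_neg heN]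
        exact hxB' e he
    have h3 := (hWC q hw).2 d hdw
    have h4 := hB'g d hdB'
    exact absurd h3 (not_lt.2 h4.le)
  -- measurability
  let ms : MeasurableSpace E := ⨆ i, MeasurableSpace.comap (fun x => J x i) (borel ℝ)
  have hJ : ∀ i, @Measurable E ℝ ms _ fun x => J x i := by
    intro i
    rw [measurable_iff_comap_le]
    exact le_iSup (fun i => MeasurableSpace.comap (fun x => J x i) (borel ℝ)) i
  suffices hgm : @Measurable E ℝ ms _ g from measurable_iff_comap_le.1 hgm
  refine measurable_of_Ioi fun a => ?_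
  have hu : g ⁻¹' (Ioi a) = ⋃ q ∈ {q : ℚ | a < q}, O q := by
    ext x
    simp only [mem_preimage, mem_Ioi, mem_iUnion, mem_ofPred_eq, exists_prop]
    constructor
    · intro hx
      obtain ⟨q, hq1, hq2⟩ := exists_rat_btwn hx
      exact ⟨q, hq1, hO2 q x hq2⟩
    · rintro ⟨q, hq, hx⟩
      exact lt_of_lt_of_le hq (hO1 q x hx)
  rw [hu]
  have hmB : ∀ c : Finset (Γ × ℚ × ℚ), MeasurableSet (J ⁻¹' (Bx c)) := by
    intro c
    have h : J ⁻¹' (Bx c) = ⋂ e ∈ c, {x : E | (e.2.1 : ℝ) < J x e.1 ∧ J x e.1 < (e.2.2 : ℝ)} := by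
      ext f; simp [Bx]
    rw [h]
    refine Finset.measurableSet_biInter _ fun e _ => ?_
    exact (measurableSet_lt measurable_const (hJ e.1)).inter
      (measurableSet_lt (hJ e.1) measurable_const)
  refine MeasurableSet.biUnion (to_countable _) fun q _ => ?_
  refine MeasurableSet.biUnion (hK.mono fun c hc => hc.1) fun c _ => hmB c

end Gen

section Dual

variable {V : Type*} [AddCommGroup V] [Module ℝ V] [TopologicalSpace V]

/-- finitely many independent functionals are jointly onto -/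
theorem exists_values {Γ : Type*} (b : Γ → (V →L[ℝ] ℝ)) (hb : LinearIndependent ℝ b)
    (s : Finset Γ) (t : Γ → ℝ) : ∃ x, ∀ i ∈ s, b i x = t i := by
  classical
  let L : V →ₗ[ℝ] (s → ℝ) := LinearMap.pi fun i => (b i.1).toLinearMap
  have hL : LinearMap.range L = ⊤ := by
    by_contra hne
    obtain ⟨f, hf0, hf⟩ := Submodule.exists_le_ker_of_lt_top _ (lt_top_iff_ne_top.2 hne)
    apply hf0
    have h1 : ∀ x, ∑ i : s, f (Pi.single i 1) * b i.1 x = 0 := by
      intro x
      have h2 : f (L x) = 0 := hf ⟨x, rfl⟩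
      have h3 : L x = ∑ i : s, (b i.1 x) • (Pi.single i (1 : ℝ) : s → ℝ) := by
        ext j
        simp [L, Finset.sum_apply, Pi.single_apply]
      rw [h3, map_sum] at h2
      simp only [map_smul, smul_eq_mul] at h2
      rw [← h2]
      exact Finset.sum_congr rfl fun i _ => mul_comm _ _
    have h4 : ∑ i : s, f (Pi.single i 1) • b i.1 = 0 := by
      ext x
      simp only [ContinuousLinearMap.coe_sum', Finset.sum_apply, ContinuousLinearMap.coe_smul',
        Pi.smul_apply, smul_eq_mul, ContinuousLinearMap.zero_apply]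
      exact h1 x
    have h5 : LinearIndependent ℝ fun i : s => b i.1 := hb.comp _ Subtype.val_injective
    have h6 := Fintype.linearIndependent_iff.1 h5 _ h4
    apply LinearMap.pi_ext'
    intro i
    ext
    simpa using h6 i
  obtain ⟨x, hx⟩ : (fun i : s => t i.1) ∈ LinearMap.range L := by rw [hL]; trivial
  refine ⟨x, fun i hi => ?_⟩
  exact congrFun hx ⟨i, hi⟩

/-- Edgar: weakly continuous real functions are measurable for the functionals -/
theorem edgar (g : V → ℝ)
    (hg : @Continuous V ℝ (⨅ (φ : V →L[ℝ] ℝ), TopologicalSpace.induced (⇑φ) inferInstance) _ g) :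
    MeasurableSpace.comap g (borel ℝ) ≤
      ⨆ (φ : V →L[ℝ] ℝ), MeasurableSpace.comap (⇑φ) (borel ℝ) := by
  classical
  let B := Module.Basis.ofVectorSpace ℝ (V →L[ℝ] ℝ)
  let J : V → Module.Basis.ofVectorSpaceIndex ℝ (V →L[ℝ] ℝ) → ℝ := fun x i => B i x
  have hD : ∀ (s : Finset _) (t : _ → ℝ), ∃ x, ∀ i ∈ s, J x i = t i := fun s t =>
    exists_values (fun i => B i) B.linearIndependent s t
  have hle : TopologicalSpace.induced J inferInstance ≤
      (⨅ (φ : V →L[ℝ] ℝ), TopologicalSpace.induced (⇑φ) inferInstance) := by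
    refine le_iInf fun φ => ?_
    rw [← continuous_iff_le_induced]
    have h1 : (⇑φ : V → ℝ) = fun x => (B.repr φ).sum fun i r => r * J x i := by
      funext x
      have h2 := congrArg (fun ψ : V →L[ℝ] ℝ => ψ x) (B.linearCombination_repr φ)
      simp only [Finsupp.linearCombination_apply, Finsupp.sum] at h2
      rw [Finsupp.sum, ← h2]
      simp [J]
    rw [h1]
    letI : TopologicalSpace V := TopologicalSpace.induced J inferInstance
    have hJ : Continuous J := continuous_induced_dom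
    unfold Finsupp.sum
    exact continuous_finsetSum _ fun i _ =>
      continuous_const.mul ((continuous_apply i).comp hJ)
  have hg' : @Continuous V ℝ (TopologicalSpace.induced J inferInstance) _ g :=
    continuous_le_dom hle hg
  refine (edgar_gen J hD g hg').trans ?_
  exact iSup_le fun i => le_iSup (fun φ : V →L[ℝ] ℝ => MeasurableSpace.comap (⇑φ) (borel ℝ)) (B i)

end Dual

end Pool.Agent.Helper92_Seq
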